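import Pool.Agent.Helper37.KGStar
import Pool.Agent.Helper37.KGKrull
import Pool.Agent.Helper37.KGField

/-!
# A serial ring of Krull dimension two whose Krull-Gabriel dimension is three

The ring is `D + x K[[x; σ]]`, where `K = ℚ(y)`, `D` is the local ring of `ℚ[y]` at `y = 0` and
`σ` is the shift `y ↦ y + 1`. It is a domain in which all left ideals and all right ideals are
totally ordered.
-/

set_option autoImplicit false

namespace Pool.Agent.Results.MP_9ad289_al.OddKrullGabriel

open Pool.Agent.Helper37.KG

/-- There is a serial ring `R` with Krull dimension `2` and Krull-Gabriel dimension `3`. -/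
theorem result : ∃ (R : Type) (_ : Ring R), IsSerialRing R ∧ HasKrullDim R 2 ∧ HasKGDim R 3 :=
  ⟨dataQX.R, inferInstance, dataQX.isSerialRing, dataQX.hasKrullDim, dataQX.hasKGDim⟩

end Pool.Agent.Results.MP_9ad289_al.OddKrullGabriel
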